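import Pool.Agent.P8H64.GP.Stm

/-!
# Package FIN of project GP (MP_130bb2_pr)
-/

set_option autoImplicit false

namespace Pool.Agent.P8H65.GP

open Pool.Agent.P8H64.GP

theorem fin : S_FIN := by
  intro m K
  refine ⟨1 + Real.exp (K - 2 * m + 1), by positivity, ?_⟩
  intro r s hr hs
  have hr' : (1 : ℝ) ≤ (r : ℝ) := by exact_mod_cast hr
  have hr0 : (0 : ℝ) < (r : ℝ) := by linarith
  have hE0 : 0 < Real.exp (K - 2 * m + 1) := Real.exp_pos _
  obtain ⟨y, hy⟩ : ∃ y : ℝ, y = 2 * s / r := ⟨_, rfl⟩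
  have hs2 : s = y * r / 2 := by
    rw [hy]; field_simp
  have hyC : 2 * (1 + Real.exp (K - 2 * m + 1)) ≤ y := by
    rw [hy, le_div_iff₀ hr0]; linarith
  have hy0 : 0 < y := by linarith
  have hlog : K - 2 * m + 1 ≤ Real.log y := by
    rw [Real.le_log_iff_exp_le hy0]; linarith
  have hl0 : 0 ≤ Real.log y := Real.log_nonneg (by linarith)
  have hs0 : 0 ≤ s := by
    rw [hs2]; positivity
  refine ⟨Real.sqrt y, ?_, ?_⟩
  · rw [Real.lt_sqrt (by norm_num)]
    linarith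
  · rw [Real.sq_sqrt hy0.le, Real.log_sqrt hy0.le]
    have h1 : (y - 1) / 2 * r = s - r / 2 := by rw [hs2]; ring
    rw [h1]
    have h2 := mul_nonneg hs0 (sub_nonneg.2 hlog)
    have h3 := mul_nonneg hr0.le hl0
    nlinarith

end Pool.Agent.P8H65.GP
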